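import Mathlib
import Pool.Agent.MP_05b4bd_ag.Dim

open Pool.Agent.MP_05b4bd_ag

theorem Pool.Agent.Results.MP_05b4bd_ag.LogThroughGeneric.result (d : ℕ) (hd : 6 ≤ d) :
    ∃ W : Set Form, (∃ f : Poly, f.totalDegree = d ∧ Morse f ∧ dform f ∉ zcl W) ∧
      ∀ f : Poly, f.totalDegree ≤ d → dform f ∉ zcl W →
        ∀ (s : ℕ) (δ : Fin s → ℕ), (∀ i, 1 ≤ δ i) → ∑ i, δ i = d + 1 →
          (dform f ∈ zcl (L δ) ↔ ∃ i, d ≤ δ i) :=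
  main_log d hd
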