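import Mathlib
import Pool.Agent.MP_05b4bd_ag.um.Final

open Pool.Agent.MP_05b4bd_ag MvPolynomial

theorem Pool.Agent.Results.MP_05b4bd_ag.MorseComponents.result (d : ℕ) (hd : 3 ≤ d) (f : Poly)
    (hf : f.totalDegree = d) (hs : Squarefree (homogeneousComponent d f)) (hM : Morse f)
    (hR : ¬ Radial d f) (Z : Set Form) (hZ : dform f ∈ Z) :
    IsComponent (M d) Z ↔ Z = zcl (L ![d + 1]) ∨ Z = zcl (L ![1, d]) ∨
      Z = zcl (L ![1, 1, d - 1]) ∨ Z = zcl (L ![2, d - 1]) ∨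
      ∃ n, d ≤ 2 * n + 1 ∧ n < d ∧ Z = zcl (PN d n) :=
  UM.main_um d hd f hf hs hM hR Z hZ
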